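import Pool.Agent.Q315.FM.Rams

/-!
# Infinite subsets with the tame Fontaine-Mazur property

A prime number `l` has level `m` (for the prime `p`) if `p ^ m` is the exact power of `p` dividing
`l - 1`. For a set `T` of primes of level `m` the property `TameFM p m n T` is the following: for
every finite set `S` of primes `≠ p` of level at most `m` whose members of level `m` are in `T`, and
every Noetherian local ring `A` of residue characteristic `p` with its adic topology, every
continuous representation `Gal(ℚbar/ℚ) → GL_n(A)` which is unramified outside `S` and trivial modulo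
`p ^ m` on the inertia groups at the primes in `S` has finite image (and is trivial if
`p ^ (m + 1) a = 0` implies `p ^ m a = 0` in `A`).

Let `p ^ m > 2`. We show that every infinite set of primes of level `m` has an infinite subset `T`
with this property, for all dimensions `n < p`, and for all dimensions at once if `p = 2`.

Outline: by Ramsey's theorem there is an infinite subset in which the power residue symbols
`(x / y)` and `(y / x)`, for `x < y`, are constant. Then any two consecutive members of a finite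
subset have the same symbols with all others, and the linear algebra criterion
`Pool.Agent.Q315.FM.noSol_chain` applies. For `p = 2` the graph of the quadratic nonresidues is
complete or empty.
-/

set_option autoImplicit false

open Filter Finset

namespace Pool.Agent.Results.MP_924d78_nt.InfiniteSubsets

open Pool.Agent.Q315.FM

theorem two (m : ℕ) (hm : 2 ≤ m) (Q : Set ℕ) (hQ : Q.Infinite) :
    ∃ T ⊆ Q, T.Infinite ∧ ∀ n, TameFM 2 m n T := by
  classical
  obtain ⟨T, hTQ, hT, a, ha⟩ := ramsey Q hQ (fun x y => decide (IsSquare ((x : ℕ) : ZMod y)))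
  refine ⟨T, hTQ, hT, fun n => tameFM_two m n hm T fun J hJ h5 => Or.inl ?_⟩
  have hne : J.Nonempty := card_pos.1 (by omega)
  refine ⟨J.min' hne, J.min'_mem hne, ?_⟩
  have key : ∀ j ∈ J, j ≠ J.min' hne →
      decide (IsSquare ((J.min' hne : ℕ) : ZMod j)) = a := by
    intro j hj hjne
    exact ha _ (hJ _ (J.min'_mem hne)).1 _ (hJ j hj).1
      (lt_of_le_of_ne (J.min'_le j hj) (Ne.symm hjne))
  cases a with
  | true =>
    left
    rintro i ⟨hi, hine, hi'⟩
    exact absurd (of_decide_eq_true (key i hi hine)) hi'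
  | false =>
    right
    rintro i ⟨hi, hine, hi'⟩
    exact absurd (fun h => of_decide_eq_false (key i hi hine) h) hi'

theorem odd (p : ℕ) [Fact p.Prime] (m : ℕ) (hm : 2 < p ^ m) (Q : Set ℕ) (hQ : Q.Infinite) :
    ∃ T ⊆ Q, T.Infinite ∧ ∀ n < p, TameFM p m n T := by
  classical
  obtain ⟨χ, hχ⟩ := exists_chars p
  obtain ⟨T, hTQ, hT, ⟨a, b, c⟩, ha⟩ := ramsey Q hQ
    (fun x y => (lk χ x y, lk χ y x, (((x - 1) / p ^ m : ℕ) : ZMod p)))
  refine ⟨T, hTQ, hT, fun n hn => tameFM_of_char p m n hm T χ hχ fun T0 hT0 J hJ hJne => ?_⟩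
  have hu : ∀ x ∈ T, (((x - 1) / p ^ m : ℕ) : ZMod p) = c := by
    intro x hx
    obtain ⟨y, hy, hxy⟩ := hT.exists_gt x
    have := ha x hx y hy hxy
    simp only [Prod.mk.injEq] at this
    exact this.2.2
  refine noSol_chain (w := fun _ => 0) (t := fun _ => 0) hn hJne
    (fun l hl => level_ne_zero (hT0 l (hJ hl)).2.2.2.1 (hT0 l (hJ hl)).2.2.2.2)
    (fun l _ j _ => by simp) ?_
  refine chain_of_consec J _ ?_ ?_
  · rintro x y ⟨hx, hy, h⟩
    exact ⟨hy, hx, fun j hj hjy hjx => (h j hj hjx hjy).symm⟩
  · intro x hx y hy hxy hz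
    refine ⟨hx, hy, fun j hj hjx hjy => ?_⟩
    have hjT := (hT0 j (hJ hj)).1
    have hxT := (hT0 x (hJ hx)).1
    have hyT := (hT0 y (hJ hy)).1
    rw [hu x hxT, hu y hyT]
    have key : lk χ x j = lk χ y j := by
      rcases hz j hj with h | h
      · have hlt : j < x := lt_of_le_of_ne h hjx
        have h1 := ha j hjT x hxT hlt
        have h2 := ha j hjT y hyT (hlt.trans hxy)
        simp only [Prod.mk.injEq] at h1 h2
        rw [h1.2.1, h2.2.1]
      · have hlt : y < j := lt_of_le_of_ne h (Ne.symm hjy)
        have h1 := ha x hxT j hjT (hxy.trans hlt)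
        have h2 := ha y hyT j hjT hlt
        simp only [Prod.mk.injEq] at h1 h2
        rw [h1.1, h2.1]
    rw [key]

/-- Let `p ^ m > 2`. Every infinite set `Q` of prime numbers `l` such that `p ^ m` is the exact power
of `p` dividing `l - 1` has an infinite subset `T` with the tame Fontaine-Mazur property in all
dimensions `n < p`, and in all dimensions if `p = 2`. -/
theorem result (p : ℕ) [Fact p.Prime] (m : ℕ) (hm : 2 < p ^ m) (Q : Set ℕ) (hQ : Q.Infinite)
    (_hQ' : ∀ l ∈ Q, l.Prime ∧ p ^ m ∣ l - 1 ∧ ¬ p ^ (m + 1) ∣ l - 1) :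
    ∃ T ⊆ Q, T.Infinite ∧ ∀ n, (n < p ∨ p = 2) → TameFM p m n T := by
  by_cases hp : p = 2
  · subst hp
    have hm2 : 2 ≤ m := by
      by_contra h
      have h1 : 2 ^ m ≤ 2 ^ 1 := Nat.pow_le_pow_right (by norm_num) (by omega)
      omega
    obtain ⟨T, hTQ, hT, h⟩ := two m hm2 Q hQ
    exact ⟨T, hTQ, hT, fun n _ => h n⟩
  · obtain ⟨T, hTQ, hT, h⟩ := odd p m hm Q hQ
    exact ⟨T, hTQ, hT, fun n hn => h n (hn.resolve_right hp)⟩

end Pool.Agent.Results.MP_924d78_nt.InfiniteSubsets
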