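import Pool.Agent.K3h10.TR.Main
import Pool.Agent.K3h10.TR.Four

/-!
# The prime three: tame representations of every dimension, for most triples and quadruples of primes

`p = 3`. A prime number `l` has level `m` if `3 ^ m` is the exact power of `3` dividing `l - 1`.
For a set `T` of primes of level `m` the property `TameFM 3 m n T` is the following: for every finite
set `S` of primes `≠ 3` of level at most `m` whose members of level `m` are in `T`, and every
Noetherian local ring `A` of residue characteristic `3` with its adic topology, every continuous
representation `Gal(ℚbar/ℚ) → GL_n(A)` which is unramified outside `S` and trivial modulo `3 ^ m` on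
the inertia groups at the primes in `S` has finite image (and is trivial if `3 ^ (m + 1) a = 0`
implies `3 ^ m a = 0` in `A`).

Let `m ≥ 1`. We show that the lower density of the `k`-tuples of primes of level `m` with this
property in all dimensions `n` simultaneously is at least the proportion of the solvable matrices
(see `solvableMatrices`) among all `k × k` matrices over `ℤ/3` with zero diagonal. For `k = 3` this
is at least `721 / 729` (`98.9 %`), for `k = 4` it is at least `365393 / 531441` (`68.7 %`).

Outline: the matrix `Λ` of a tuple `(t_1, ..., t_k)` has the entry `Λ_ij = ± log t_i` in
`(ℤ/t_j)ˣ / cubes ≅ ℤ/3`, the sign depending on `(t_i - 1) / 3 ^ m mod 3`. If the matrix is solvable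
then the linear algebra criterion of the library holds for all `n`: a row of a subset with at most
one nonzero entry, a subset closed under the links, or three primes which are not exceptional
(`Pool.Agent.TH831.NA`). All `k (k - 1)` cubic symbols of the tuples of primes are jointly
equidistributed: this is `Pool.Agent.K3h10.TR.eqd`, deduced from the bilinear estimate of the
library for disjoint sets by averaging over all subsets.
-/

set_option autoImplicit false

open Filter Finset

namespace Pool.Agent.Results.MP_924d78_nt.MostTuplesAtThree

open Pool.Agent.K3h5.FM Pool.Agent.K3h10.TR

/-- At least `721` of the `729` matrices of size three and `365393` of the `531441` matrices of size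
four over `ℤ/3` with zero diagonal are solvable, and for every `m ≥ 1` and every `k` the `k`-tuples
of distinct primes of level `m` (for `p = 3`) with the tame Fontaine-Mazur property in all dimensions
have lower density at least `solvableMatrices k / 3 ^ (k (k - 1))` among all `k`-tuples of primes of
level `m`. -/
theorem result (m : ℕ) (hm : 1 ≤ m) :
    721 ≤ solvableMatrices 3 ∧ 365393 ≤ solvableMatrices 4 ∧
      ∀ (k : ℕ) (ε : ℝ), 0 < ε → ∀ᶠ x : ℕ in atTop,
        ((solvableMatrices k : ℝ) / 3 ^ (k * (k - 1)) - ε) *
          ((LevelPrimes 3 m x).card : ℝ) ^ k ≤ (goodTuples 3 m k x : ℝ) :=
  ⟨three, four, fun k ε hε => part_three m hm k ε hε⟩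

end Pool.Agent.Results.MP_924d78_nt.MostTuplesAtThree
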