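import Pool.Agent.K3h5.FM.Stat

/-!
# The prime two: tame representations of every dimension, for most tuples of primes

`p = 2`. A prime number `l` has level `m` if `2 ^ m` is the exact power of `2` dividing `l - 1`.
For a set `T` of primes of level `m` the property `TameFM 2 m n T` is the following: for every finite
set `S` of odd primes of level at most `m` whose members of level `m` are in `T`, and every
Noetherian local ring `A` of residue characteristic `2` with its adic topology, every continuous
representation `Gal(ℚbar/ℚ) → GL_n(A)` which is unramified outside `S` and trivial modulo `2 ^ m` on
the inertia groups at the primes in `S` has finite image (and is trivial if `2 ^ (m + 1) a = 0`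
implies `2 ^ m a = 0` in `A`).

Let `m ≥ 2`. We show that the lower density of the `k`-tuples of primes of level `m` with this
property in all dimensions `n` simultaneously is at least the proportion of the solvable graphs
(see `solvableGraphs`) among all graphs with `k` labelled vertices. For `k = 5` this is at
least `1012 / 1024 = 253 / 256`: all graphs with five vertices but the twelve pentagons are solvable.

Outline: for a tuple whose graph of quadratic nonresidues is solvable, the linear algebra criterion
of the library holds for all `n` (`Pool.Agent.Q315.FM.tameFM_two`). All patterns of the quadratic
residue symbols are equally frequent (`Pool.Agent.Q315.FM.patterns_freq`).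
-/

set_option autoImplicit false

open Filter Finset

namespace Pool.Agent.Results.MP_924d78_nt.MostTuplesAtTwo

open Pool.Agent.K3h5.FM

/-- Let `m ≥ 2`. At least `1012` of the `1024` graphs with five labelled vertices are solvable, and
for every `k`, the `k`-tuples of distinct primes of level `m` (for `p = 2`) with the tame
Fontaine-Mazur property in all dimensions have lower density at least
`solvableGraphs k / 2 ^ (k choose 2)` among all `k`-tuples of primes of level `m`. -/
theorem result (m : ℕ) (hm : 2 ≤ m) :
    1012 ≤ solvableGraphs 5 ∧ ∀ (k : ℕ) (ε : ℝ), 0 < ε → ∀ᶠ x : ℕ in atTop,
      ((solvableGraphs k : ℝ) / 2 ^ (k.choose 2) - ε) * ((LevelPrimes 2 m x).card : ℝ) ^ k ≤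
        (goodTuples 2 m k x : ℝ) :=
  ⟨solvable_five, fun k ε hε => part_two m hm k ε hε⟩

end Pool.Agent.Results.MP_924d78_nt.MostTuplesAtTwo
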