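import Pool.Agent.K3h5.FM.Stat

/-!
# Tame representations of every dimension, for a positive proportion of all tuples of primes

A prime number `l` has level `m` (for the prime `p`) if `p ^ m` is the exact power of `p` dividing
`l - 1`. For a set `T` of primes of level `m` the property `TameFM p m n T` is the following: for
every finite set `S` of primes `≠ p` of level at most `m` whose members of level `m` are in `T`, and
every Noetherian local ring `A` of residue characteristic `p` with its adic topology, every
continuous representation `Gal(ℚbar/ℚ) → GL_n(A)` which is unramified outside `S` and trivial modulo
`p ^ m` on the inertia groups at the primes in `S` has finite image (and is trivial if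
`p ^ (m + 1) a = 0` implies `p ^ m a = 0` in `A`).

Let `p ^ m > 2`. We show that for every `k` a positive proportion of all `k`-tuples of primes of
level `m` have this property in all dimensions `n` simultaneously: the lower density of these
tuples is at least `∏_{i < k} (1 + i (p - 1)) / p ^ i`.

Outline: if every member `t_i` of the tuple is a `p`-th power modulo all but at most one of the
later ones, then the linear algebra criterion of the library holds for all `n`
(`Pool.Agent.TH831.NA.noSol_row`). The rows of power residue symbols are equidistributed by the
large sieve (`Pool.Agent.Q315.FM.sparse_count`).
-/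

set_option autoImplicit false

open Filter Finset

namespace Pool.Agent.Results.MP_924d78_nt.PositiveProportion

open Pool.Agent.K3h5.FM

/-- Let `p ^ m > 2`. For every `k`, the `k`-tuples of distinct primes of level `m` with the tame
Fontaine-Mazur property in all dimensions have lower density at least
`∏_{i < k} (1 + i (p - 1)) / p ^ i` among all `k`-tuples of primes of level `m`. -/
theorem result (p : ℕ) [Fact p.Prime] (m : ℕ) (hm : 2 < p ^ m) (k : ℕ) (ε : ℝ) (hε : 0 < ε) :
    ∀ᶠ x : ℕ in atTop, ((∏ i ∈ range k, (1 + i * ((p : ℝ) - 1)) / (p : ℝ) ^ i) - ε) *
      ((LevelPrimes p m x).card : ℝ) ^ k ≤ (goodTuples p m k x : ℝ) :=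
  part_all p m hm k ε hε

end Pool.Agent.Results.MP_924d78_nt.PositiveProportion
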